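import Pool.Agent.Helper23.CB.Fac3
import Pool.Agent.Helper79.CB.Core

/-!
# Project CB, degree 3, piece CORE3: the parts
-/

set_option autoImplicit false

namespace Pool.Agent.Helper55.CB

open Finset Pool.Agent.Helper4.CB Pool.Agent.Helper23.CB

open Classical in
/-- the conclusion of `sift` for one system -/
def SiftAt {N : ℕ} {G : Type} [AddCommGroup G] (S : Sys N G) (K zs : ℕ) : Prop :=
  ∀ z : ℕ, zs ≤ z → ∀ (Λ : AddSubgroup G) (ρ X : ℕ) (τ x0 : G), Λ.index ≠ 0 →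
    (∀ T : Finset S.Q, T ⊆ S.le z → Λ ⊔ T.inf S.Γ = ⊤) → Rad S.e Λ ρ →
    z ^ K * (ρ + 1) ≤ X →
    |(((bx S.e τ X).filter (fun g => g - x0 ∈ Λ ∧ ∀ q ∈ S.le z, g ∉ S.E q)).card : ℝ) -
        (X : ℝ) ^ N / Λ.index * S.V z| ≤ 1 / 4 * ((X : ℝ) ^ N / Λ.index * S.V z)

variable {n : ℕ} {G : Type} [AddCommGroup G] {S : Sys (2 * n) G}

open Classical in
/-- sifted points in a lattice of a factor -/
theorem upper_b (F : Fac3 n S) {K zs : ℕ} (hs : SiftAt S K zs)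
    {Γ0 : AddSubgroup G} (hΓ0 : Γ0.index ≠ 0)
    (h0 : ∀ (b : F.B) (T : Finset S.Q), (∀ q ∈ F.pf b, q ∉ T) → Γ0 ⊔ (F.Λ b ⊓ T.inf S.Γ) = ⊤)
    {z : ℕ} (hz : zs ≤ z) (b : F.B) (hb : ∀ q ∈ F.pf b, z < S.nm q) {ρ X : ℕ}
    (hρ : Rad S.e (F.Λ b) ρ) (hX : z ^ K * (Γ0.index * (ρ + 1) + 1) ≤ X) (hV : 0 ≤ S.V z)
    (τ x0 : G) :
    (((bx S.e τ X).filter (fun g => g - x0 ∈ Γ0 ∧ (∀ q ∈ S.le z, g ∉ S.E q) ∧
      g ∈ F.Λ b)).card : ℝ) ≤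
      5 / 4 * ((X : ℝ) ^ (2 * n) / Γ0.index * S.V z) * (1 / F.bn b) := by
  have hbn : F.bn b ≠ 0 := F.bn_pos b
  have hΛ : (F.Λ b).index ≠ 0 := by rw [F.index b]; exact hbn
  rcases ((bx S.e τ X).filter (fun g => g - x0 ∈ Γ0 ∧ (∀ q ∈ S.le z, g ∉ S.E q) ∧
      g ∈ F.Λ b)).eq_empty_or_nonempty with he | ⟨g1, hg1⟩
  · rw [he, Finset.card_empty]
    push_cast
    positivity
  rw [Finset.mem_filter] at hg1
  have hsup : Γ0 ⊔ F.Λ b = ⊤ := by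
    have h1 := h0 b ∅ (fun _ _ => Finset.notMem_empty _)
    rwa [Finset.inf_empty, inf_top_eq] at h1
  have hidx : (Γ0 ⊓ F.Λ b).index = Γ0.index * (F.Λ b).index := index_inf hsup hΓ0 hΛ
  have hidx0 : (Γ0 ⊓ F.Λ b).index ≠ 0 := by
    rw [hidx]
    exact mul_ne_zero hΓ0 hΛ
  have hcom : ∀ T : Finset S.Q, T ⊆ S.le z → (Γ0 ⊓ F.Λ b) ⊔ T.inf S.Γ = ⊤ := by
    intro T hT
    have hd : ∀ q ∈ F.pf b, q ∉ T := by
      intro q hq hc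
      have h1 := S.mem_le.mp (hT hc)
      have h2 := hb q hq
      omega
    exact sup_of_sup (h0 b T hd) (F.sup b T hd)
  have h1 := hs z hz (Γ0 ⊓ F.Λ b) (Γ0.index * (ρ + 1)) X τ g1 hidx0 hcom
    (rad_inf_index hρ hΓ0) hX
  rw [abs_le] at h1
  have h2 : (((bx S.e τ X).filter (fun g => g - x0 ∈ Γ0 ∧ (∀ q ∈ S.le z, g ∉ S.E q) ∧
      g ∈ F.Λ b)).card : ℝ) ≤
      ((bx S.e τ X).filter (fun g => g - g1 ∈ Γ0 ⊓ F.Λ b ∧ ∀ q ∈ S.le z, g ∉ S.E q)).card := by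
    exact_mod_cast Finset.card_le_card (fun g hg => by
      rw [Finset.mem_filter] at hg ⊢
      refine ⟨hg.1, ⟨?_, (F.Λ b).sub_mem hg.2.2.2 hg1.2.2.2⟩, hg.2.2.1⟩
      have := Γ0.sub_mem hg.2.1 hg1.2.1
      simpa using this)
  have h3 : ((Γ0 ⊓ F.Λ b).index : ℝ) = Γ0.index * F.bn b := by
    rw [hidx, F.index b]
    push_cast
    ring
  rw [h3] at h1
  have h4 : (X : ℝ) ^ (2 * n) / (Γ0.index * F.bn b) * S.V z =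
      (X : ℝ) ^ (2 * n) / Γ0.index * S.V z * (1 / F.bn b) := by
    have : (Γ0.index : ℝ) ≠ 0 := by exact_mod_cast hΓ0
    have : (F.bn b : ℝ) ≠ 0 := by exact_mod_cast hbn
    field_simp
  rw [h4] at h1
  linarith [h1.2]

open Classical in
/-- sifted points in a finite family of lattices of a factor -/
theorem upper_family (F : Fac3 n S) {K zs : ℕ} (hs : SiftAt S K zs)
    {Γ0 : AddSubgroup G} (hΓ0 : Γ0.index ≠ 0)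
    (h0 : ∀ (b : F.B) (T : Finset S.Q), (∀ q ∈ F.pf b, q ∉ T) → Γ0 ⊔ (F.Λ b ⊓ T.inf S.Γ) = ⊤)
    {z z0 : ℕ} (hz : zs ≤ z) (hzz : z ≤ z0) {R X : ℕ}
    (hX : z ^ K * (Γ0.index * (R + 1) + 1) ≤ X) (hV : 0 ≤ S.V z)
    (τ x0 : G) (A : Finset F.B) (hA : ∀ b ∈ A, (∀ q ∈ F.pf b, z0 < S.nm q) ∧
      Rad S.e (F.Λ b) R) (P : G → Prop) (hP : ∀ g ∈ bx S.e τ X, P g → ∃ b ∈ A, g ∈ F.Λ b) :
    (((bx S.e τ X).filter (fun g => g - x0 ∈ Γ0 ∧ (∀ q ∈ S.le z0, g ∉ S.E q) ∧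
      P g)).card : ℝ) ≤
      5 / 4 * ((X : ℝ) ^ (2 * n) / Γ0.index * S.V z) * ∑ b ∈ A, (1 : ℝ) / F.bn b := by
  have hsub : (bx S.e τ X).filter (fun g => g - x0 ∈ Γ0 ∧ (∀ q ∈ S.le z0, g ∉ S.E q) ∧ P g) ⊆
      A.biUnion (fun b => (bx S.e τ X).filter (fun g => g - x0 ∈ Γ0 ∧
        (∀ q ∈ S.le z, g ∉ S.E q) ∧ g ∈ F.Λ b)) := by
    intro g hg
    rw [Finset.mem_filter] at hg
    obtain ⟨hgb, hgΓ, hgE, hgP⟩ := hg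
    obtain ⟨b, hb, hgb'⟩ := hP g hgb hgP
    rw [Finset.mem_biUnion]
    refine ⟨b, hb, ?_⟩
    rw [Finset.mem_filter]
    exact ⟨hgb, hgΓ, fun q hq => hgE q (S.mem_le.mpr (le_trans (S.mem_le.mp hq) hzz)), hgb'⟩
  have h1 := (Finset.card_le_card hsub).trans Finset.card_biUnion_le
  have h2 : (((bx S.e τ X).filter (fun g => g - x0 ∈ Γ0 ∧ (∀ q ∈ S.le z0, g ∉ S.E q) ∧
      P g)).card : ℝ) ≤ ∑ b ∈ A, (((bx S.e τ X).filter (fun g => g - x0 ∈ Γ0 ∧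
        (∀ q ∈ S.le z, g ∉ S.E q) ∧ g ∈ F.Λ b)).card : ℝ) := by
    exact_mod_cast h1
  refine h2.trans ?_
  rw [Finset.mul_sum]
  refine Finset.sum_le_sum (fun b hb => ?_)
  obtain ⟨h3, h4⟩ := hA b hb
  exact upper_b F hs hΓ0 h0 hz b (fun q hq => lt_of_le_of_lt hzz (h3 q hq)) h4 hX hV τ x0

open Classical in
/-- **direct part** -/
theorem direct_part (F : Fac3 n S) {K zs : ℕ} (hs : SiftAt S K zs)
    {Γ0 : AddSubgroup G} (hΓ0 : Γ0.index ≠ 0)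
    (h0 : ∀ (b : F.B) (T : Finset S.Q), (∀ q ∈ F.pf b, q ∉ T) → Γ0 ⊔ (F.Λ b ⊓ T.inf S.Γ) = ⊤)
    (bad : Set S.Q) {z z0 : ℕ} (hz : zs ≤ z) (hzz : z ≤ z0) {R X M : ℕ}
    (hX : z ^ K * (Γ0.index * (R + 1) + 1) ≤ X) (hV : 0 ≤ S.V z) (τ x0 : G) :
    (((bx S.e τ X).filter (fun g => g - x0 ∈ Γ0 ∧ (∀ q ∈ S.le z0, g ∉ S.E q) ∧
      ∃ q, q ∈ bad ∧ z0 < S.nm q ∧ S.nm q ≤ M ∧ ∃ b ∈ F.P q, g ∈ F.Λ b ∧
        Rad S.e (F.Λ b) R)).card : ℝ) ≤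
      5 / 4 * ((X : ℝ) ^ (2 * n) / Γ0.index * S.V z) *
        (3 * ∑ q ∈ (S.le M).filter (fun q => q ∈ bad ∧ z0 < S.nm q), (1 : ℝ) / S.nm q) := by
  have hpos : 0 ≤ 5 / 4 * ((X : ℝ) ^ (2 * n) / Γ0.index * S.V z) := by positivity
  set Q1 := (S.le M).filter (fun q => q ∈ bad ∧ z0 < S.nm q) with hQ1
  refine (upper_family F hs hΓ0 h0 hz hzz hX hV τ x0
    ((Q1.biUnion F.P).filter (fun b => Rad S.e (F.Λ b) R)) ?_ _ ?_).trans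
    (mul_le_mul_of_nonneg_left ?_ hpos)
  · intro b hb
    rw [Finset.mem_filter, Finset.mem_biUnion] at hb
    obtain ⟨⟨q, hq, hbq⟩, hR⟩ := hb
    refine ⟨fun q' hq' => ?_, hR⟩
    rw [F.P_pf q b hbq, Finset.mem_singleton] at hq'
    rw [hq']
    exact (Finset.mem_filter.1 hq).2.2
  · rintro g _ ⟨q, h1, h2, h3, b, h4, h5, h6⟩
    refine ⟨b, ?_, h5⟩
    rw [Finset.mem_filter, Finset.mem_biUnion]
    exact ⟨⟨q, Finset.mem_filter.2 ⟨S.mem_le.2 h3, h1, h2⟩, h4⟩, h6⟩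
  · calc ∑ b ∈ (Q1.biUnion F.P).filter (fun b => Rad S.e (F.Λ b) R), (1 : ℝ) / F.bn b
        ≤ ∑ b ∈ Q1.biUnion F.P, (1 : ℝ) / F.bn b :=
          Finset.sum_le_sum_of_subset_of_nonneg (Finset.filter_subset _ _)
            (fun _ _ _ => by positivity)
      _ = ∑ q ∈ Q1, ∑ b ∈ F.P q, (1 : ℝ) / F.bn b := by
          refine Finset.sum_biUnion ?_
          intro q _ q' _ hqq
          rw [Function.onFun, Finset.disjoint_left]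
          intro b hb hb'
          have h1 := F.P_pf q b hb
          rw [F.P_pf q' b hb'] at h1
          exact hqq (Finset.singleton_injective h1).symm
      _ ≤ ∑ q ∈ Q1, 3 * ((1 : ℝ) / S.nm q) := by
          refine Finset.sum_le_sum (fun q _ => ?_)
          calc ∑ b ∈ F.P q, (1 : ℝ) / F.bn b = ∑ b ∈ F.P q, (1 : ℝ) / S.nm q :=
                Finset.sum_congr rfl (fun b hb => by rw [F.P_bn q b hb])
            _ = (F.P q).card * ((1 : ℝ) / S.nm q) := by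
                rw [Finset.sum_const, nsmul_eq_mul]
            _ ≤ _ := by
                refine mul_le_mul_of_nonneg_right ?_ (by positivity)
                exact_mod_cast F.P_card q
      _ = _ := by rw [Finset.mul_sum]

open Classical in
/-- **cofactor part** -/
theorem cof_part (F : Fac3 n S) {K zs : ℕ} (hs : SiftAt S K zs)
    {Γ0 : AddSubgroup G} (hΓ0 : Γ0.index ≠ 0)
    (h0 : ∀ (b : F.B) (T : Finset S.Q), (∀ q ∈ F.pf b, q ∉ T) → Γ0 ⊔ (F.Λ b ⊓ T.inf S.Γ) = ⊤)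
    (Adm : Set F.B) {z z0 k0 : ℕ} (hz : zs ≤ z) (hzz : z ≤ z0) {R X : ℕ} {ε : ℝ}
    (hX : z ^ K * (Γ0.index * (R + 1) + 1) ≤ X) (hV : 0 ≤ S.V z) (τ x0 : G)
    (hA : ∀ A : Finset F.B, (∀ b ∈ A, b ∈ Adm ∧ F.bn b ≤ z0 ^ k0 ∧ ∀ q ∈ F.pf b, z0 < S.nm q) →
      ∑ b ∈ A, (1 : ℝ) / F.bn b ≤ ε) :
    (((bx S.e τ X).filter (fun g => g - x0 ∈ Γ0 ∧ (∀ q ∈ S.le z0, g ∉ S.E q) ∧
      ∃ b : F.B, b ∈ Adm ∧ g ∈ F.Λ b ∧ (∀ q ∈ F.pf b, z0 < S.nm q) ∧ F.bn b ≤ z0 ^ k0 ∧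
        Rad S.e (F.Λ b) R)).card : ℝ) ≤
      5 / 4 * ((X : ℝ) ^ (2 * n) / Γ0.index * S.V z) * ε := by
  have hpos : 0 ≤ 5 / 4 * ((X : ℝ) ^ (2 * n) / Γ0.index * S.V z) := by positivity
  -- a choice of `b`
  have hch : ∃ f : G → Option F.B, ∀ g, (∃ b : F.B, b ∈ Adm ∧ g ∈ F.Λ b ∧
      (∀ q ∈ F.pf b, z0 < S.nm q) ∧ F.bn b ≤ z0 ^ k0 ∧ Rad S.e (F.Λ b) R) →
      ∃ b : F.B, f g = some b ∧ b ∈ Adm ∧ g ∈ F.Λ b ∧
      (∀ q ∈ F.pf b, z0 < S.nm q) ∧ F.bn b ≤ z0 ^ k0 ∧ Rad S.e (F.Λ b) R := by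
    have h1 : ∀ g, ∃ o : Option F.B, (∃ b : F.B, b ∈ Adm ∧ g ∈ F.Λ b ∧
        (∀ q ∈ F.pf b, z0 < S.nm q) ∧ F.bn b ≤ z0 ^ k0 ∧ Rad S.e (F.Λ b) R) →
        ∃ b : F.B, o = some b ∧ b ∈ Adm ∧ g ∈ F.Λ b ∧
        (∀ q ∈ F.pf b, z0 < S.nm q) ∧ F.bn b ≤ z0 ^ k0 ∧ Rad S.e (F.Λ b) R := by
      intro g
      by_cases h : ∃ b : F.B, b ∈ Adm ∧ g ∈ F.Λ b ∧
        (∀ q ∈ F.pf b, z0 < S.nm q) ∧ F.bn b ≤ z0 ^ k0 ∧ Rad S.e (F.Λ b) R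
      · obtain ⟨b, hb⟩ := h
        exact ⟨some b, fun _ => ⟨b, rfl, hb⟩⟩
      · exact ⟨none, fun h' => absurd h' h⟩
    choose f hf using h1
    exact ⟨f, hf⟩
  obtain ⟨f, hf⟩ := hch
  obtain ⟨A, hAdef⟩ : ∃ A : Finset F.B, ∀ b, b ∈ A ↔ (b ∈ Adm ∧
      (∀ q ∈ F.pf b, z0 < S.nm q) ∧ F.bn b ≤ z0 ^ k0 ∧ Rad S.e (F.Λ b) R) ∧
        ∃ g ∈ bx S.e τ X, f g = some b := by
    have hfin : {b : F.B | (b ∈ Adm ∧
      (∀ q ∈ F.pf b, z0 < S.nm q) ∧ F.bn b ≤ z0 ^ k0 ∧ Rad S.e (F.Λ b) R) ∧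
        ∃ g ∈ bx S.e τ X, f g = some b}.Finite := by
      have h2 : ((bx S.e τ X : Set G).image f).Finite := (bx S.e τ X).finite_toSet.image f
      have h3 := h2.preimage (Option.some_injective F.B).injOn
      refine h3.subset ?_
      rintro b ⟨_, g, hg, hgb⟩
      exact ⟨g, Finset.mem_coe.2 hg, hgb⟩
    refine ⟨hfin.toFinset, fun b => ?_⟩
    rw [Set.Finite.mem_toFinset]
    rfl
  refine (upper_family F hs hΓ0 h0 hz hzz hX hV τ x0 A ?_ (fun g => ∃ b : F.B, b ∈ Adm ∧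
      g ∈ F.Λ b ∧ (∀ q ∈ F.pf b, z0 < S.nm q) ∧ F.bn b ≤ z0 ^ k0 ∧
        Rad S.e (F.Λ b) R) ?_).trans (mul_le_mul_of_nonneg_left (hA A ?_) hpos)
  · intro b hb
    have h2 := ((hAdef b).1 hb).1
    exact ⟨h2.2.1, h2.2.2.2⟩
  · intro g hg hPg
    obtain ⟨b, h1, h2, h3, h4⟩ := hf g hPg
    exact ⟨b, (hAdef b).2 ⟨⟨h2, h4⟩, g, hg, h1⟩, h3⟩
  · intro b hb
    have h2 := ((hAdef b).1 hb).1
    exact ⟨h2.1, h2.2.2.1, h2.2.1⟩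

open Classical in
/-- **exceptional lattices** -/
theorem win_part (F : Fac3 n S) {E a c : ℕ} {T : ℕ}
    (hT : ∀ (τ : G) (A : Finset F.B),
      (∀ b ∈ A, (∃ q, b ∈ F.P q) ∧ F.bn b ≤ T ^ (3 * n * E + a) ∧
        ¬ Rad S.e (F.Λ b) (T ^ (2 * E - c))) →
      ∑ b ∈ A, ((bx S.e τ (T ^ (2 * E))).filter (fun g => g ∈ F.Λ b)).card ≤
        T ^ (3 * n * E + 2 * a + 4 * n * c + 2)) (τ : G) :
    ((bx S.e τ (T ^ (2 * E))).filter (fun g => ∃ q, S.nm q ≤ T ^ (3 * n * E + a) ∧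
      ∃ b ∈ F.P q, g ∈ F.Λ b ∧ ¬ Rad S.e (F.Λ b) (T ^ (2 * E - c)))).card ≤
      T ^ (3 * n * E + 2 * a + 4 * n * c + 2) := by
  set A := ((S.le (T ^ (3 * n * E + a))).biUnion F.P).filter
    (fun b => ¬ Rad S.e (F.Λ b) (T ^ (2 * E - c))) with hA
  refine le_trans ?_ (hT τ A ?_)
  · refine le_trans (Finset.card_le_card ?_) Finset.card_biUnion_le
    intro g hg
    rw [Finset.mem_filter] at hg
    obtain ⟨hg0, q, h1, b, h2, h3, h4⟩ := hg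
    rw [Finset.mem_biUnion]
    refine ⟨b, ?_, Finset.mem_filter.2 ⟨hg0, h3⟩⟩
    rw [hA, Finset.mem_filter, Finset.mem_biUnion]
    exact ⟨⟨q, S.mem_le.2 h1, h2⟩, h4⟩
  · intro b hb
    rw [hA, Finset.mem_filter, Finset.mem_biUnion] at hb
    obtain ⟨⟨q, h1, h2⟩, h3⟩ := hb
    refine ⟨⟨q, h2⟩, ?_, h3⟩
    rw [F.P_bn q b h2]
    exact S.mem_le.1 h1

end Pool.Agent.Helper55.CB
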